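import Pool.Agent.Helper63.XR.StA

set_option autoImplicit false

namespace Pool.Agent.Helper28.XR

open Pool.Agent.Helper63.XR
open Finset

private theorem mink_SPC {J : Type} (A : Finset J) (y1 y2 : J → ℂ) (κ z : ℝ) (hκ : 0 ≤ κ)
    (hz : 0 ≤ z) (h1 : ∑ j ∈ A, ‖y1 j‖ ≤ κ) (h2 : ∑ j ∈ A, ‖y2 j‖ ^ 2 ≤ z ^ 2) :
    ∑ j ∈ A, ‖y1 j + y2 j‖ ^ 2 ≤ (κ + z) ^ 2 := by
  have ha : ∀ j ∈ A, ‖y1 j‖ ≤ κ := fun j hj =>
    (Finset.single_le_sum (f := fun j => ‖y1 j‖) (fun i _ => norm_nonneg _) hj).trans h1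
  have hb : ∀ j ∈ A, ‖y2 j‖ ≤ z := fun j hj => by
    have := (Finset.single_le_sum (f := fun j => ‖y2 j‖ ^ 2) (fun i _ => by positivity) hj).trans h2
    exact abs_le_of_sq_le_sq' (by simpa using this) hz |>.2
  have key : ∀ j ∈ A, ‖y1 j + y2 j‖ ^ 2 ≤ (κ + 2 * z) * ‖y1 j‖ + ‖y2 j‖ ^ 2 := by
    intro j hj
    have h3 : ‖y1 j + y2 j‖ ≤ ‖y1 j‖ + ‖y2 j‖ := norm_add_le _ _
    have h4 : ‖y1 j + y2 j‖ ^ 2 ≤ (‖y1 j‖ + ‖y2 j‖) ^ 2 :=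
      pow_le_pow_left₀ (norm_nonneg _) h3 2
    have h5 := ha j hj
    have h6 := hb j hj
    have h7 := norm_nonneg (y1 j)
    have h8 := norm_nonneg (y2 j)
    nlinarith
  calc ∑ j ∈ A, ‖y1 j + y2 j‖ ^ 2 ≤ ∑ j ∈ A, ((κ + 2 * z) * ‖y1 j‖ + ‖y2 j‖ ^ 2) :=
        Finset.sum_le_sum key
    _ = (κ + 2 * z) * ∑ j ∈ A, ‖y1 j‖ + ∑ j ∈ A, ‖y2 j‖ ^ 2 := by
        rw [Finset.sum_add_distrib, Finset.mul_sum]
    _ ≤ (κ + 2 * z) * κ + z ^ 2 := by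
        have : 0 ≤ κ + 2 * z := by linarith
        nlinarith
    _ = (κ + z) ^ 2 := by ring

theorem hSPC : StSpc := by
  intro hC hT P _ _ k b a g S _ _ t E l q ψ ρ κ z ε hρ hε hκ hz hlq hqk h5
  classical
  have hcap : ∀ j : {j // j ∈ Cap g t E ε ψ l q}, ∃ f : S × P → ℂ, E.mulVec f = f ∧ n1 f ≤ 1 ∧
      ε ≤ ‖pr (ψ q j.1) f‖ := by
    rintro ⟨j, hj⟩
    unfold Cap at hj
    exact (Finset.mem_filter.1 hj).2
  choose f hf1 hf2 hf3 using hcap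
  have hsub : Cap g t E ε ψ l q ⊆ Al g t l := by
    intro j hj
    unfold Cap at hj
    exact (Finset.mem_filter.1 hj).1
  have := hC hT (S × P) {j // j ∈ Cap g t E ε ψ l q} E ρ (κ + z) ε (fun j => ψ q j.1) f hρ hε hf1
    hf3 (by
      intro t'
      obtain ⟨y1, y2, e1, e2, e3⟩ := h5 (f t') (hf1 t') (hf2 t') q hlq hqk
      calc ∑ j : {j // j ∈ Cap g t E ε ψ l q}, ‖pr (ψ q j.1) (f t')‖ ^ 2
          = ∑ j ∈ Cap g t E ε ψ l q, ‖pr (ψ q j) (f t')‖ ^ 2 :=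
            Finset.sum_coe_sort (Cap g t E ε ψ l q) (fun j => ‖pr (ψ q j) (f t')‖ ^ 2)
        _ ≤ ∑ j ∈ Al g t l, ‖pr (ψ q j) (f t')‖ ^ 2 :=
            Finset.sum_le_sum_of_subset_of_nonneg hsub fun _ _ _ => by positivity
        _ = ∑ j ∈ Al g t l, ‖y1 j + y2 j‖ ^ 2 :=
            Finset.sum_congr rfl fun j hj => by rw [e1 j hj]
        _ ≤ (κ + z) ^ 2 := mink_SPC _ y1 y2 κ z hκ hz e2 e3)
  rw [Fintype.card_coe] at this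
  exact this

end Pool.Agent.Helper28.XR
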